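import Pool.Agent.H5.DF.Defs

/-!
Check of the definitions of `Pool/Agent/H5/DF/Defs.lean` (MP_0d9ad5_pr, review of SharpLargeD): at
`p = 1` (simple random walk on all of `ℤ ^ d`) the number `1 / d` is the diffusivity.
-/

namespace H27DChk

open H5DF MeasureTheory Filter Topology ProbabilityTheory
open scoped RealInnerProductSpace

variable {d : ℕ}

/-- The law of `X_n` for the walk with all edges open, started at `0`. -/
noncomputable def nu (d : ℕ) : ℕ → Measure (V d)
  | 0 => Measure.dirac 0
  | n + 1 => ∑ s : Dir d, (2 * d : ENNReal)⁻¹ • (nu d n).map (fun x => x + step s)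

lemma card_dir : Fintype.card (Dir d) = 2 * d := by
  simp [Dir, mul_comm]

lemma meas_all {β : Type*} [MeasurableSpace β] (f : V d → β) : Measurable f := Measurable.of_discrete

instance nu_prob [NeZero d] (n : ℕ) : IsProbabilityMeasure (nu d n) := by
  induction n with
  | zero => unfold nu; infer_instance
  | succ n ih =>
    constructor
    have hd : (2 * d : ENNReal) ≠ 0 := by
      have := NeZero.ne d
      simp [this]
    simp only [nu, Measure.coe_finsetSum, Finset.sum_apply, Measure.smul_apply, smul_eq_mul]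
    rw [Finset.sum_congr rfl (fun s _ => by
      rw [Measure.map_apply (meas_all _) MeasurableSet.univ, Set.preimage_univ, measure_univ,
        mul_one]), Finset.sum_const, Finset.card_univ, card_dir, nsmul_eq_mul]
    push_cast
    exact ENNReal.mul_inv_cancel hd (by finiteness)

/-- Expectations for the walk with all edges open. -/
lemma walkE_full [NeZero d] {ω : Cfg d} (hω : ∀ e, ω e = true) (f : V d → ℝ) (hf : ∃ C, ∀ x, |f x| ≤ C)
    (n : ℕ) (x : V d) : walkE ω n f x = ∫ y, f (x + y) ∂(nu d n) := by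
  obtain ⟨C, hC⟩ := hf
  have hint : ∀ (n : ℕ) (g : V d → V d), Integrable (fun y => f (g y)) (nu d n) := fun n g =>
    Integrable.of_bound (meas_all _).aestronglyMeasurable C (Eventually.of_forall fun y => hC _)
  induction n generalizing x with
  | zero => simp [walkE, nu]
  | succ n ih =>
    have hdeg : deg ω x = 2 * d := by
      simp [deg, hω]
      ring
    rw [walkE, hdeg]
    simp only [hω, if_true, ih]
    rw [nu, integral_finsetSum_measure]
    · rw [Finset.sum_div]
      refine Finset.sum_congr rfl fun s _ => ?_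
      rw [integral_smul_measure, integral_map (meas_all _).aemeasurable
        (meas_all _).aestronglyMeasurable]
      simp only [ENNReal.toReal_inv, ENNReal.toReal_mul, ENNReal.toReal_ofNat,
        ENNReal.toReal_natCast, smul_eq_mul]
      rw [div_eq_inv_mul]
      congr 1
      refine integral_congr_ae (Eventually.of_forall fun y => ?_)
      simp only
      congr 1
      abel
    · intro s _
      refine Integrable.smul_measure ?_ (by
        have := NeZero.ne d
        simp [this])
      rw [integrable_map_measure (meas_all _).aestronglyMeasurable (meas_all _).aemeasurable]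
      exact hint n _

/-- The position in Euclidean space. -/
noncomputable def pos (x : V d) : EuclideanSpace ℝ (Fin d) := WithLp.toLp 2 (fun i => (x i : ℝ))

lemma pos_add (x y : V d) : pos (x + y) = pos x + pos y := by
  ext i
  simp [pos]

lemma inner_step (s : Dir d) (t : EuclideanSpace ℝ (Fin d)) :
    ⟪pos (step s), t⟫ = (if s.2 then 1 else -1) * t s.1 := by
  classical
  simp only [pos, step, PiLp.inner_apply]
  rw [Finset.sum_eq_single s.1]
  · cases s.2 <;> simp
  · intro j _ hj
    simp [hj]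
  · simp

/-- The characteristic function of one step. -/
noncomputable def phi (t : EuclideanSpace ℝ (Fin d)) : ℝ := (d : ℝ)⁻¹ * ∑ i, Real.cos (t i)

lemma sum_step [NeZero d] (t : EuclideanSpace ℝ (Fin d)) :
    ∑ s : Dir d, (2 * d : ℂ)⁻¹ * Complex.exp ((⟪pos (step s), t⟫ : ℝ) * Complex.I) = (phi t : ℂ) := by
  have hd : (d : ℂ) ≠ 0 := by exact_mod_cast NeZero.ne d
  rw [Fintype.sum_prod_type]
  simp only [inner_step, Fintype.sum_bool, if_true, Bool.false_eq_true, if_false]
  rw [phi]
  push_cast
  rw [Finset.mul_sum]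
  refine Finset.sum_congr rfl fun i _ => ?_
  rw [Complex.cos]
  field_simp

lemma char_nu [NeZero d] (n : ℕ) (t : EuclideanSpace ℝ (Fin d)) :
    ∫ y, Complex.exp ((⟪pos y, t⟫ : ℝ) * Complex.I) ∂(nu d n) = (phi t : ℂ) ^ n := by
  have hb : ∀ a : ℝ, ‖Complex.exp ((a : ℂ) * Complex.I)‖ ≤ 1 := fun a => by
    rw [Complex.norm_exp_ofReal_mul_I]
  have hint : ∀ (n : ℕ) (g : V d → ℝ),
      Integrable (fun y => Complex.exp ((g y : ℂ) * Complex.I)) (nu d n) := fun n g =>
    Integrable.of_bound (meas_all _).aestronglyMeasurable 1 (Eventually.of_forall fun y => hb _)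
  induction n with
  | zero =>
    have h0 : pos (0 : V d) = 0 := by
      ext i
      simp [pos]
    simp [nu, h0]
  | succ n ih =>
    rw [nu, integral_finsetSum_measure]
    · have hterm : ∀ s : Dir d, ∫ y, Complex.exp ((⟪pos y, t⟫ : ℝ) * Complex.I)
          ∂((2 * d : ENNReal)⁻¹ • (nu d n).map (fun x => x + step s)) =
          (2 * d : ℂ)⁻¹ * Complex.exp ((⟪pos (step s), t⟫ : ℝ) * Complex.I) * (phi t : ℂ) ^ n := by
        intro s
        rw [integral_smul_measure, integral_map (meas_all _).aemeasurable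
          (meas_all _).aestronglyMeasurable, ← ih]
        have : ∀ y : V d, Complex.exp ((⟪pos (y + step s), t⟫ : ℝ) * Complex.I) =
            Complex.exp ((⟪pos (step s), t⟫ : ℝ) * Complex.I) *
              Complex.exp ((⟪pos y, t⟫ : ℝ) * Complex.I) := by
          intro y
          rw [← Complex.exp_add, pos_add, inner_add_left]
          push_cast
          congr 1
          ring
        simp only [this]
        rw [integral_const_mul]
        simp only [ENNReal.toReal_inv, ENNReal.toReal_mul, ENNReal.toReal_ofNat,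
          ENNReal.toReal_natCast, Complex.real_smul]
        push_cast
        ring
      rw [Finset.sum_congr rfl fun s _ => hterm s, ← Finset.sum_mul, sum_step, pow_succ, mul_comm]
    · intro s _
      refine Integrable.smul_measure ?_ (by
        have := NeZero.ne d
        simp [this])
      rw [integrable_map_measure (meas_all _).aestronglyMeasurable (meas_all _).aemeasurable]
      exact hint n _

/-- `φ(t / √n) ^ n → exp (- |t|² / (2 d))`. -/
lemma tendsto_phi [NeZero d] (t : EuclideanSpace ℝ (Fin d)) :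
    Tendsto (fun n : ℕ => (phi ((Real.sqrt n)⁻¹ • t) : ℂ) ^ n) atTop
      (𝓝 (Complex.exp (((-(∑ i, t i ^ 2) / (2 * d) : ℝ)) : ℂ))) := by
  have hd : (d : ℝ) ≠ 0 := by exact_mod_cast NeZero.ne d
  have hdpos : (0 : ℝ) < d := by
    have := NeZero.pos d
    exact_mod_cast this
  apply Complex.tendsto_pow_exp_of_isLittleO_sub_add_div
  have hre : ∀ n : ℕ, ((phi ((Real.sqrt n)⁻¹ • t) : ℂ) -
      (1 + (((-(∑ i, t i ^ 2) / (2 * d) : ℝ)) : ℂ) / n)) =
      ((phi ((Real.sqrt n)⁻¹ • t) - (1 + (-(∑ i, t i ^ 2) / (2 * d)) / n) : ℝ) : ℂ) := by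
    intro n
    push_cast
    rfl
  simp only [hre]
  have hre2 : ∀ n : ℕ, (1 / (n : ℂ)) = ((1 / (n : ℝ) : ℝ) : ℂ) := by
    intro n
    push_cast
    rfl
  simp only [hre2]
  rw [← Asymptotics.isLittleO_norm_norm]
  simp only [Complex.norm_real]
  rw [Asymptotics.isLittleO_norm_norm]
  set B : ℝ := ∑ i, t i ^ 4 with hB
  have key : ∀ᶠ n : ℕ in atTop,
      ‖phi ((Real.sqrt n)⁻¹ • t) - (1 + (-(∑ i, t i ^ 2) / (2 * d)) / n)‖ ≤
        B * ‖(1 / (n : ℝ)) ^ 2‖ := by
    have hev : ∀ᶠ n : ℕ in atTop, (∑ i, t i ^ 2) ≤ (n : ℝ) :=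
      tendsto_natCast_atTop_atTop.eventually_ge_atTop _
    filter_upwards [hev, eventually_gt_atTop 0] with n hn hn0
    have hn0' : (0 : ℝ) < n := by exact_mod_cast hn0
    have hs : (Real.sqrt n) ^ 2 = n := Real.sq_sqrt hn0'.le
    have hs0 : 0 < Real.sqrt n := Real.sqrt_pos.2 hn0'
    have h1 : phi ((Real.sqrt n)⁻¹ • t) - (1 + (-(∑ i, t i ^ 2) / (2 * d)) / n) =
        (d : ℝ)⁻¹ * ∑ i, (Real.cos ((Real.sqrt n)⁻¹ * t i) -
          (1 - ((Real.sqrt n)⁻¹ * t i) ^ 2 / 2)) := by
      have h2 : ∀ i, ((Real.sqrt n)⁻¹ * t i) ^ 2 / 2 = (2 * n : ℝ)⁻¹ * t i ^ 2 := by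
        intro i
        rw [mul_pow, inv_pow, hs]
        field_simp
      simp only [h2, Finset.sum_sub_distrib, ← Finset.mul_sum, phi, PiLp.smul_apply, smul_eq_mul]
      simp only [Finset.sum_const, Finset.card_univ, Fintype.card_fin, nsmul_eq_mul, mul_one]
      field_simp
      ring
    rw [h1, norm_mul]
    have h3 : ∀ i, ‖Real.cos ((Real.sqrt n)⁻¹ * t i) - (1 - ((Real.sqrt n)⁻¹ * t i) ^ 2 / 2)‖ ≤
        t i ^ 4 * (1 / (n : ℝ)) ^ 2 := by
      intro i
      have h4 : |(Real.sqrt n)⁻¹ * t i| ≤ 1 := by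
        rw [← sq_le_one_iff_abs_le_one, mul_pow, inv_pow, hs, inv_mul_le_iff₀ hn0', mul_one]
        refine le_trans ?_ hn
        exact Finset.single_le_sum (f := fun i => t i ^ 2) (fun j _ => sq_nonneg (t j))
          (Finset.mem_univ i)
      have h5 := Real.cos_bound h4
      rw [Real.norm_eq_abs]
      refine h5.trans ?_
      have h6 : |(Real.sqrt n)⁻¹ * t i| ^ 4 = t i ^ 4 * (1 / (n : ℝ)) ^ 2 := by
        have : |(Real.sqrt n)⁻¹ * t i| ^ 4 = (((Real.sqrt n)⁻¹ * t i) ^ 2) ^ 2 := by
          rw [← sq_abs ((Real.sqrt n)⁻¹ * t i)]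
          ring
        rw [this, mul_pow, inv_pow, hs]
        field_simp
      rw [h6]
      have : 0 ≤ t i ^ 4 * (1 / (n : ℝ)) ^ 2 := by positivity
      linarith
    have h7 : ‖∑ i, (Real.cos ((Real.sqrt n)⁻¹ * t i) -
        (1 - ((Real.sqrt n)⁻¹ * t i) ^ 2 / 2))‖ ≤ B * (1 / (n : ℝ)) ^ 2 := by
      refine (norm_sum_le _ _).trans ?_
      rw [hB, Finset.sum_mul]
      exact Finset.sum_le_sum fun i _ => h3 i
    have h8 : ‖(d : ℝ)⁻¹‖ ≤ 1 := by
      rw [norm_inv, Real.norm_natCast]
      have : (1 : ℝ) ≤ d := by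
        have := NeZero.one_le (n := d)
        exact_mod_cast this
      exact inv_le_one_of_one_le₀ this
    have h9 : ‖(1 / (n : ℝ)) ^ 2‖ = (1 / (n : ℝ)) ^ 2 := by
      rw [Real.norm_of_nonneg (by positivity)]
    rw [h9]
    have h10 : 0 ≤ B * (1 / (n : ℝ)) ^ 2 := by
      have : 0 ≤ B := Finset.sum_nonneg fun i _ => by positivity
      positivity
    calc _ ≤ 1 * (B * (1 / (n : ℝ)) ^ 2) := by gcongr
      _ = _ := one_mul _
  refine (Asymptotics.IsBigO.of_bound B key).trans_isLittleO ?_
  have hz : Tendsto (fun n : ℕ => 1 / (n : ℝ)) atTop (𝓝 0) := tendsto_one_div_atTop_nhds_zero_nat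
  have := (Asymptotics.isLittleO_one_iff ℝ).2 hz
  have h2 := this.mul_isBigO (Asymptotics.isBigO_refl (fun n : ℕ => 1 / (n : ℝ)) atTop)
  simpa [sq] using h2

/-- At `p = 1` the number `1 / d` is the diffusivity. -/
theorem hasDiffusivity_one (hd : 1 ≤ d) : HasDiffusivity d 1 ((d : NNReal)⁻¹) := by
  have : NeZero d := ⟨by omega⟩
  have hb : bern 1 = Measure.dirac true := by simp [bern]
  have hall : ∀ᵐ ω ∂(perc d 1), ∀ e, ω e = true := by
    rw [ae_all_iff]
    intro e
    have hm : MeasurePreserving (fun ω : Cfg d => ω e) (perc d 1) (bern 1) := by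
      have : IsProbabilityMeasure (bern 1) := by rw [hb]; infer_instance
      exact measurePreserving_eval_infinitePi (fun _ : Ed d => bern 1) e
    have h1 : ∀ᵐ b ∂(bern 1), b = true := by
      rw [hb, ae_dirac_iff (show MeasurableSet {b : Bool | b = true} from MeasurableSet.of_discrete)]
    exact hm.quasiMeasurePreserving.ae h1
  filter_upwards [hall] with ω hω _ f
  have hbd : ∀ g : V d → (Fin d → ℝ), ∃ C, ∀ x, |f (g x)| ≤ C := fun g =>
    ⟨‖f‖, fun x => by simpa using f.norm_coe_le_norm (g x)⟩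
  let F : V d → ℕ → EuclideanSpace ℝ (Fin d) := fun x n => (Real.sqrt n)⁻¹ • pos x
  let mu : ℕ → ProbabilityMeasure (EuclideanSpace ℝ (Fin d)) := fun n =>
    ⟨(nu d n).map (fun x => F x n), Measure.isProbabilityMeasure_map (meas_all _).aemeasurable⟩
  have hpp : IsProbabilityMeasure ((Measure.pi fun _ : Fin d => gaussianReal 0 (d : NNReal)⁻¹).map
      (WithLp.toLp 2 : (Fin d → ℝ) → EuclideanSpace ℝ (Fin d))) :=
    Measure.isProbabilityMeasure_map (by fun_prop)
  let mu0 : ProbabilityMeasure (EuclideanSpace ℝ (Fin d)) :=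
    ⟨(Measure.pi fun _ : Fin d => gaussianReal 0 (d : NNReal)⁻¹).map (WithLp.toLp 2), hpp⟩
  have hlim : Tendsto mu atTop (𝓝 mu0) := by
    refine ProbabilityMeasure.tendsto_of_tendsto_charFun fun t => ?_
    have h1 : ∀ n, charFun (mu n : Measure (EuclideanSpace ℝ (Fin d))) t =
        (phi ((Real.sqrt n)⁻¹ • t) : ℂ) ^ n := by
      intro n
      rw [← char_nu]
      change charFun ((nu d n).map (fun x => F x n)) t = _
      rw [charFun_apply, integral_map (meas_all _).aemeasurable (by fun_prop)]
      refine integral_congr_ae (Eventually.of_forall fun y => ?_)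
      simp only [F]
      rw [real_inner_smul_left, real_inner_smul_right]
    have h2 : charFun (mu0 : Measure (EuclideanSpace ℝ (Fin d))) t =
        Complex.exp (((-(∑ i, t i ^ 2) / (2 * d) : ℝ)) : ℂ) := by
      change charFun ((Measure.pi fun _ : Fin d => gaussianReal 0 (d : NNReal)⁻¹).map
        (WithLp.toLp 2)) t = _
      rw [charFun_pi]
      simp only [charFun_gaussianReal]
      rw [← Complex.exp_sum]
      congr 1
      push_cast
      have hd0 : (d : ℂ) ≠ 0 := by exact_mod_cast NeZero.ne d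
      rw [neg_div, Finset.sum_div, ← Finset.sum_neg_distrib]
      refine Finset.sum_congr rfl fun i _ => ?_
      field_simp
      simp
      ring
    simp only [h1, h2]
    exact tendsto_phi t
  rw [ProbabilityMeasure.tendsto_iff_forall_integral_tendsto] at hlim
  let g : BoundedContinuousFunction (EuclideanSpace ℝ (Fin d)) ℝ :=
    f.compContinuous ⟨fun x => x.ofLp, by fun_prop⟩
  have h3 := hlim g
  have h4 : ∀ n : ℕ, ∫ x, g x ∂(mu n : Measure (EuclideanSpace ℝ (Fin d))) =
      walkE ω n (fun x => f (fun i => (x i : ℝ) / Real.sqrt n)) 0 := by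
    intro n
    rw [walkE_full hω _ (hbd _)]
    change ∫ x, g x ∂((nu d n).map (fun x => F x n)) = _
    rw [integral_map (meas_all _).aemeasurable (by fun_prop)]
    refine integral_congr_ae (Eventually.of_forall fun y => ?_)
    simp only [g, F, zero_add, BoundedContinuousFunction.compContinuous_apply,
      ContinuousMap.coe_mk]
    congr 1
    funext i
    simp [pos, div_eq_inv_mul]
  have h5 : ∫ x, g x ∂(mu0 : Measure (EuclideanSpace ℝ (Fin d))) =
      ∫ y, f y ∂(Measure.pi fun _ : Fin d => gaussianReal 0 (d : NNReal)⁻¹) := by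
    change ∫ x, g x ∂((Measure.pi fun _ : Fin d => gaussianReal 0 (d : NNReal)⁻¹).map
        (WithLp.toLp 2)) = _
    rw [integral_map (by fun_prop) (by fun_prop)]
    rfl
  rw [h5] at h3
  exact h3.congr h4

end H27DChk
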