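import Pool.Agent.H5.DF.Defs

/-!
Checks of the definitions of `Pool/Agent/H5/DF/Defs.lean` (MP_0d9ad5_pr, review of SharpLargeD).
-/

namespace H27DChk

open H5DF MeasureTheory Filter Topology ProbabilityTheory

lemma bern_prob {p : ℝ} (h0 : 0 ≤ p) (h1 : p ≤ 1) : IsProbabilityMeasure (bern p) := ⟨by
  simp [bern, ← ENNReal.ofReal_add h0 (sub_nonneg.2 h1)]⟩

/-- For `0 ≤ p ≤ 1` the law of the configuration is a probability measure. -/
lemma perc_prob {d : ℕ} {p : ℝ} (h0 : 0 ≤ p) (h1 : p ≤ 1) : IsProbabilityMeasure (perc d p) := by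
  have := bern_prob h0 h1
  unfold perc
  infer_instance

/-- The edges of any finite set `F` are open and those of a disjoint finite set `K` are closed with
probability `p ^ |F| (1-p) ^ |K|`. -/
lemma perc_cyl {d : ℕ} {p : ℝ} (h0 : 0 ≤ p) (h1 : p ≤ 1) (F K : Finset (Ed d)) (hFK : Disjoint F K) :
    perc d p {ω | (∀ e ∈ F, ω e = true) ∧ ∀ e ∈ K, ω e = false} =
      ENNReal.ofReal p ^ F.card * ENNReal.ofReal (1 - p) ^ K.card := by
  classical
  have := bern_prob h0 h1
  have hset : {ω : Cfg d | (∀ e ∈ F, ω e = true) ∧ ∀ e ∈ K, ω e = false} =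
      Set.pi (F ∪ K : Finset (Ed d)) (fun e => if e ∈ F then {true} else {false}) := by
    ext ω
    simp only [Set.mem_setOf_eq, Set.mem_pi, Finset.mem_coe, Finset.mem_union]
    constructor
    · rintro ⟨h1, h2⟩ e (he | he)
      · simp [he, h1 e he]
      · have : e ∉ F := fun h => (Finset.disjoint_left.1 hFK h he)
        simp [this, h2 e he]
    · intro h
      refine ⟨fun e he => by simpa [he] using h e (Or.inl he), fun e he => ?_⟩
      have : e ∉ F := fun h => (Finset.disjoint_left.1 hFK h he)
      simpa [this] using h e (Or.inr he)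
  rw [hset]
  unfold perc
  rw [Measure.infinitePi_pi _ (fun e _ => by split_ifs <;> exact measurableSet_singleton _),
    Finset.prod_union hFK]
  congr 1
  · rw [← Finset.prod_const]
    exact Finset.prod_congr rfl fun e he => by simp [he, bern]
  · rw [← Finset.prod_const]
    refine Finset.prod_congr rfl fun e he => ?_
    have : e ∉ F := fun h => (Finset.disjoint_left.1 hFK h he)
    simp [this, bern]

/-- There is at most one diffusivity as soon as `θ(p) > 0`. -/
theorem diffusivity_unique {d : ℕ} (hd : 1 ≤ d) {p : ℝ} {D D' : NNReal} (hθ : 0 < theta d p)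
    (h : HasDiffusivity d p D) (h' : HasDiffusivity d p D') : D = D' := by
  have hne : perc d p {ω | (cluster ω 0).Infinite} ≠ 0 := by
    intro h0
    simp [theta, Measure.real, h0] at hθ
  have hex : ∃ ω : Cfg d, (cluster ω 0).Infinite ∧
      ((cluster ω 0).Infinite → ∀ f : BoundedContinuousFunction (Fin d → ℝ) ℝ,
      Tendsto (fun n : ℕ => walkE ω n (fun x => f (fun i => (x i : ℝ) / Real.sqrt n)) 0) atTop
        (𝓝 (∫ y, f y ∂(Measure.pi fun _ : Fin d => gaussianReal 0 D)))) ∧
      ((cluster ω 0).Infinite → ∀ f : BoundedContinuousFunction (Fin d → ℝ) ℝ,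
      Tendsto (fun n : ℕ => walkE ω n (fun x => f (fun i => (x i : ℝ) / Real.sqrt n)) 0) atTop
        (𝓝 (∫ y, f y ∂(Measure.pi fun _ : Fin d => gaussianReal 0 D')))) := by
    by_contra hcon
    push Not at hcon
    apply hne
    have hh := h.and h'
    rw [ae_iff] at hh
    refine measure_mono_null ?_ hh
    intro ω hω
    simp only [Set.mem_setOf_eq]
    rintro ⟨h1, h2⟩
    exact absurd h2 (by
      intro h2
      obtain ⟨-, f, hf⟩ := hcon ω hω h1
      exact hf (h2 hω f))
  obtain ⟨ω, hinf, h1, h2⟩ := hex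
  have heq : (Measure.pi fun _ : Fin d => gaussianReal 0 D) =
      Measure.pi fun _ : Fin d => gaussianReal 0 D' :=
    ext_of_forall_integral_eq_of_IsFiniteMeasure
      fun f => tendsto_nhds_unique (h1 hinf f) (h2 hinf f)
  have hm : ∀ E : NNReal, (Measure.pi fun _ : Fin d => gaussianReal 0 E).map
      (fun y => y ⟨0, hd⟩) = gaussianReal 0 E := fun E =>
    (measurePreserving_eval (fun _ : Fin d => gaussianReal 0 E) ⟨0, hd⟩).map_eq
  have hg : gaussianReal 0 D = gaussianReal 0 D' := by rw [← hm D, ← hm D', heq]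
  have hv : (D : ℝ) = D' := by
    rw [← variance_id_gaussianReal (μ := 0) (v := D), hg, variance_id_gaussianReal]
  exact_mod_cast hv

/-- If `θ(p) = 0` every `D` is a diffusivity: hence the inequalities of SharpLargeD at `p` exclude
`θ(p) = 0`. -/
theorem diffusivity_of_theta_zero {d : ℕ} {p : ℝ} (D : NNReal)
    (hθ : perc d p {ω | (cluster ω 0).Infinite} = 0) : HasDiffusivity d p D := by
  have : ∀ᵐ ω ∂(perc d p), ¬ (cluster ω 0).Infinite := by
    rw [ae_iff]
    simpa using hθ
  filter_upwards [this] with ω hω hinf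
  exact absurd hinf hω

end H27DChk
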