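import Pool.Agent.VN.Stmt

/-!
# Checks of the definitions of MP_7e9189_lc.NoCountableLevel
-/

set_option autoImplicit false

namespace Pool.Agent.H27.DChk.VNStmt

open Pool.Agent.VN
open scoped ENNReal

section BFchecks

variable {G H : Type} [Group G] [Group H]

/-- Level zero: the same equalities between terms (atomic formulas) hold. -/
theorem zero_iff {n : ℕ} (a : Fin n → G) (b : Fin n → H) :
    BF G H 0 n a b ↔ ∀ v w : FreeGroup (Fin n),
      (FreeGroup.lift a v = FreeGroup.lift a w ↔ FreeGroup.lift b v = FreeGroup.lift b w) := by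
  rw [BF_zero]
  constructor
  · intro h v w
    have := h (v * w⁻¹)
    rwa [map_mul, map_mul, map_inv, map_inv, mul_inv_eq_one, mul_inv_eq_one] at this
  · intro h w
    have := h w 1
    rwa [map_one, map_one] at this

/-- The level relation is preserved by isomorphisms. -/
theorem bf_of_mulEquiv (e : G ≃* H) (α : Ordinal.{0}) :
    ∀ (n : ℕ) (a : Fin n → G), BF G H α n a (e ∘ a) := by
  induction α using Ordinal.limitRecOn with
  | zero =>
    intro n a
    rw [BF_zero]
    intro w
    have h : FreeGroup.lift (e ∘ a) w = e (FreeGroup.lift a w) := by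
      have : FreeGroup.lift (e ∘ a) = (e : G →* H).comp (FreeGroup.lift a) := by
        ext i
        simp
      rw [this]
      rfl
    rw [h]
    simp
  | add_one β ih =>
    intro n a
    rw [BF_succ]
    have happ : ∀ (m : ℕ) (c : Fin m → G), Fin.append (e ∘ a) (e ∘ c) = e ∘ Fin.append a c := by
      intro m c
      funext i
      refine Fin.addCases (fun i => ?_) (fun i => ?_) i <;> simp
    refine ⟨fun m c => ⟨e ∘ c, ?_⟩, fun m d => ⟨e.symm ∘ d, ?_⟩⟩
    · rw [happ]
      exact ih _ _
    · have h : e ∘ (e.symm ∘ d) = d := by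
        funext i
        simp
      have := ih _ (Fin.append a (e.symm ∘ d))
      rwa [← happ, h] at this
  | limit β hβ ih =>
    intro n a
    rw [BF_limit β hβ]
    exact fun γ hγ => ih γ hγ n a

theorem bfEquiv_of_mulEquiv (e : G ≃* H) (α : Ordinal.{0}) : BFEquiv G H α := by
  have h := bf_of_mulEquiv e α 0 Fin.elim0
  have h2 : e ∘ (Fin.elim0 : Fin 0 → G) = Fin.elim0 := by
    funext i
    exact i.elim0
  rwa [h2] at h

/-- The levels are decreasing. -/
theorem bf_succ_self (β : Ordinal.{0}) :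
    ∀ (n : ℕ) (a : Fin n → G) (b : Fin n → H), BF G H (β + 1) n a b → BF G H β n a b := by
  induction β using Ordinal.limitRecOn with
  | zero =>
    intro n a b h
    rw [BF_succ] at h
    obtain ⟨d, hd⟩ := h.1 0 Fin.elim0
    rw [BF_zero] at hd ⊢
    intro w
    have hf : FreeGroup.lift (Fin.append a Fin.elim0) (FreeGroup.map (Fin.castAdd 0) w) =
        FreeGroup.lift a w := by
      have : (FreeGroup.lift (Fin.append a Fin.elim0)).comp (FreeGroup.map (Fin.castAdd 0)) =
          FreeGroup.lift a := by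
        ext i
        simp
      rw [← this]
      rfl
    have hg : FreeGroup.lift (Fin.append b d) (FreeGroup.map (Fin.castAdd 0) w) =
        FreeGroup.lift b w := by
      have : (FreeGroup.lift (Fin.append b d)).comp (FreeGroup.map (Fin.castAdd 0)) =
          FreeGroup.lift b := by
        ext i
        have h1 : Fin.append b d (Fin.castAdd 0 i) = b i := Fin.append_left b d i
        simpa using h1
      rw [← this]
      rfl
    have := hd (FreeGroup.map (Fin.castAdd 0) w)
    rwa [hf, hg] at this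
  | add_one γ ih =>
    intro n a b h
    rw [BF_succ] at h ⊢
    refine ⟨fun m c => ?_, fun m d => ?_⟩
    · obtain ⟨d, hd⟩ := h.1 m c
      exact ⟨d, ih _ _ _ hd⟩
    · obtain ⟨c, hc⟩ := h.2 m d
      exact ⟨c, ih _ _ _ hc⟩
  | limit β hβ ih =>
    intro n a b h
    rw [BF_limit β hβ]
    intro γ hγ
    have hγ1 : γ + 1 < β := by
      have := hβ.succ_lt hγ
      simpa using this
    rw [BF_succ] at h
    apply ih γ hγ
    rw [BF_succ]
    refine ⟨fun m c => ?_, fun m d => ?_⟩
    · obtain ⟨d, hd⟩ := h.1 m c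
      rw [BF_limit β hβ] at hd
      exact ⟨d, hd γ hγ⟩
    · obtain ⟨c, hc⟩ := h.2 m d
      rw [BF_limit β hβ] at hc
      exact ⟨c, hc γ hγ⟩

theorem bf_mono {α β : Ordinal.{0}} (h : β ≤ α) :
    ∀ (n : ℕ) (a : Fin n → G) (b : Fin n → H), BF G H α n a b → BF G H β n a b := by
  induction α using Ordinal.limitRecOn with
  | zero =>
    intro n a b hab
    rwa [nonpos_iff_eq_zero.1 h]
  | add_one γ ih =>
    intro n a b hab
    rcases h.eq_or_lt with rfl | h1
    · exact hab
    · exact ih (Order.lt_add_one_iff.1 h1) n a b (bf_succ_self γ n a b hab)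
  | limit γ hγ ih =>
    intro n a b hab
    rcases h.eq_or_lt with rfl | h1
    · exact hab
    · rw [BF_limit γ hγ] at hab
      exact hab β h1

/-- Level one of nontrivial content: it detects, for example, commutativity. -/
theorem comm_of_bf (h : BFEquiv G H 1) (hG : ∀ x y : G, x * y = y * x) (x y : H) :
    x * y = y * x := by
  have h1 : BF G H (0 + 1) 0 Fin.elim0 Fin.elim0 := by
    rw [zero_add]
    exact h
  rw [BF_succ] at h1
  obtain ⟨c, hc⟩ := h1.2 2 ![x, y]
  rw [BF_zero] at hc
  have := hc (FreeGroup.of (Fin.natAdd 0 0) * FreeGroup.of (Fin.natAdd 0 1) *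
    (FreeGroup.of (Fin.natAdd 0 0))⁻¹ * (FreeGroup.of (Fin.natAdd 0 1))⁻¹)
  simp only [map_mul, map_inv, FreeGroup.lift_apply_of, Fin.append_right] at this
  have h2 := this.1 (by rw [hG (c 0) (c 1)]; group)
  have h3 : x * y * x⁻¹ * y⁻¹ = 1 := h2
  calc x * y = x * y * x⁻¹ * y⁻¹ * (y * x) := by group
    _ = y * x := by rw [h3, one_mul]

end BFchecks

/-- Countable ordinals are the ordinals below `ω₁`. -/
theorem lt_omega_one (α : Ordinal.{0}) : α < Ordinal.omega 1 ↔ α.card ≤ Cardinal.aleph0 := by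
  rw [Cardinal.lt_omega_iff_card_lt, Cardinal.lt_aleph_one_iff]

/-- A well-order type is below `ω₁` iff the well-ordered set is countable. -/
theorem type_lt_omega_one (X : Type) [LinearOrder X] [WellFoundedLT X] :
    Ordinal.type (· < · : X → X → Prop) < Ordinal.omega 1 ↔ Countable X := by
  rw [lt_omega_one, Ordinal.card_type, Cardinal.mk_le_aleph0_iff]

section VN

variable {G H : Type} [Group G] [Group H]

/-- The left translation by `g` maps `δ_x` to `δ_(g x)`. -/
theorem lam_single [DecidableEq G] (g x : G) :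
    lam g (lp.single 2 x (1 : ℂ)) = lp.single 2 (g * x) (1 : ℂ) := by
  apply lp.ext
  funext h
  have h1 : (lam g (lp.single 2 x (1 : ℂ)) : l2 G) h = (lp.single 2 x (1 : ℂ) : l2 G) (g⁻¹ * h) :=
    rfl
  rw [h1, lp.single_apply, lp.single_apply, Pi.single_apply, Pi.single_apply]
  congr 1
  rw [eq_iff_iff]
  constructor
  · rintro rfl
    group
  · rintro rfl
    group

theorem star_lam (g : G) : star (lam g) = lam g⁻¹ := by
  rw [lam, Pool.H88.RFP.star_permL]
  have h : (Equiv.mulLeft g)⁻¹ = Equiv.mulLeft g⁻¹ := by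
    ext x
    simp
  rw [h]
  rfl

/-- Membership in the group von Neumann algebra: commuting with every operator that commutes with
all left translations. -/
theorem mem_groupVN (T : l2 G →L[ℂ] l2 G) :
    T ∈ groupVN G ↔ ∀ S : l2 G →L[ℂ] l2 G, (∀ g : G, lam g * S = S * lam g) → S * T = T * S := by
  have h0 : T ∈ groupVN G ↔ T ∈ StarSubalgebra.centralizer ℂ
      (StarSubalgebra.centralizer ℂ (leftTranslations G) : Set (l2 G →L[ℂ] l2 G)) := Iff.rfl
  rw [h0, StarSubalgebra.mem_centralizer_iff, leftTranslations_eq]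
  have h1 : ∀ S : l2 G →L[ℂ] l2 G,
      S ∈ StarSubalgebra.centralizer ℂ (Set.range (lam (G := G))) ↔
        ∀ g : G, lam g * S = S * lam g := by
    intro S
    rw [StarSubalgebra.mem_centralizer_iff]
    constructor
    · exact fun h g => (h (lam g) ⟨g, rfl⟩).1
    · rintro h _ ⟨g, rfl⟩
      rw [star_lam]
      exact ⟨h g, h g⁻¹⟩
  constructor
  · intro h S hS
    exact (h S ((h1 S).2 hS)).1
  · intro h S hS
    have hS1 := (h1 S).1 hS
    refine ⟨h S hS1, h (star S) fun g => ?_⟩
    have h2 := congrArg star (hS1 g⁻¹)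
    rw [star_mul, star_mul, star_lam, inv_inv] at h2
    exact h2.symm

theorem lam_mem (g : G) : lam g ∈ groupVN G := by
  rw [mem_groupVN]
  exact fun S hS => (hS g).symm

/-- The bicommutant is the smallest von Neumann algebra that contains the set. -/
theorem bicommutant_le {E : Type} [NormedAddCommGroup E] [InnerProductSpace ℂ E]
    [CompleteSpace E] (S : Set (E →L[ℂ] E)) (A : VonNeumannAlgebra E) (h : S ⊆ A) :
    (bicommutant S : Set (E →L[ℂ] E)) ⊆ A := by
  have h1 : ((bicommutant S : VonNeumannAlgebra E) : Set (E →L[ℂ] E)) =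
      ((StarSubalgebra.centralizer ℂ (StarSubalgebra.centralizer ℂ S : Set (E →L[ℂ] E)) :
        StarSubalgebra ℂ (E →L[ℂ] E)) : Set (E →L[ℂ] E)) := rfl
  rw [h1, StarSubalgebra.coe_centralizer_centralizer]
  have h2 : S ∪ star S ⊆ A := by
    rintro x (hx | hx)
    · exact h hx
    · have h3 : star x ∈ A := h hx
      have h4 := star_mem h3
      rwa [star_star] at h4
  have h5 := Set.centralizer_subset (Set.centralizer_subset h2)
  have h6 := A.centralizer_centralizer'
  exact h5.trans h6.le

theorem subset_bicommutant {E : Type} [NormedAddCommGroup E] [InnerProductSpace ℂ E]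
    [CompleteSpace E] (S : Set (E →L[ℂ] E)) : S ⊆ (bicommutant S : Set (E →L[ℂ] E)) := by
  have h1 : ((bicommutant S : VonNeumannAlgebra E) : Set (E →L[ℂ] E)) =
      ((StarSubalgebra.centralizer ℂ (StarSubalgebra.centralizer ℂ S : Set (E →L[ℂ] E)) :
        StarSubalgebra ℂ (E →L[ℂ] E)) : Set (E →L[ℂ] E)) := rfl
  rw [h1, StarSubalgebra.coe_centralizer_centralizer]
  exact Set.subset_union_left.trans Set.subset_centralizer_centralizer

/-- Conjugation by a unitary. -/
noncomputable def conj {E F : Type} [NormedAddCommGroup E] [InnerProductSpace ℂ E] [CompleteSpace E]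
    [NormedAddCommGroup F] [InnerProductSpace ℂ F] [CompleteSpace F] (U : E ≃ₗᵢ[ℂ] F)
    (T : E →L[ℂ] E) : F →L[ℂ] F :=
  (U.toContinuousLinearEquiv : E →L[ℂ] F) ∘L T ∘L (U.symm.toContinuousLinearEquiv : F →L[ℂ] E)

section conj

variable {E F : Type} [NormedAddCommGroup E] [InnerProductSpace ℂ E] [CompleteSpace E]
    [NormedAddCommGroup F] [InnerProductSpace ℂ F] [CompleteSpace F] (U : E ≃ₗᵢ[ℂ] F)

theorem conj_apply (T : E →L[ℂ] E) (x : F) : conj U T x = U (T (U.symm x)) := rfl

theorem conj_mul (S T : E →L[ℂ] E) : conj U (S * T) = conj U S * conj U T := by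
  ext x
  simp [conj_apply]

theorem conj_conj (T : E →L[ℂ] E) : conj U.symm (conj U T) = T := by
  ext x
  simp [conj_apply]

theorem conj_star (T : E →L[ℂ] E) : conj U (star T) = star (conj U T) := by
  rw [ContinuousLinearMap.star_eq_adjoint, ContinuousLinearMap.star_eq_adjoint,
    ContinuousLinearMap.eq_adjoint_iff]
  intro x y
  rw [conj_apply, conj_apply]
  have h1 : inner ℂ (U (ContinuousLinearMap.adjoint T (U.symm x))) y =
      inner ℂ (ContinuousLinearMap.adjoint T (U.symm x)) (U.symm y) := by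
    rw [← U.inner_map_map (ContinuousLinearMap.adjoint T (U.symm x)) (U.symm y),
      LinearIsometryEquiv.apply_symm_apply]
  have h2 : inner ℂ x (U (T (U.symm y))) = inner ℂ (U.symm x) (T (U.symm y)) := by
    rw [← U.inner_map_map (U.symm x) (T (U.symm y)), LinearIsometryEquiv.apply_symm_apply]
  rw [h1, h2, ContinuousLinearMap.adjoint_inner_left]

end conj

/-- The unitary of `ℓ²` induced by an isomorphism. -/
noncomputable def uni (e : G ≃* H) : l2 G ≃ₗᵢ[ℂ] l2 H where
  toFun ξ := ⟨fun h => ξ (e.symm h), by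
    have h2 : (0 : ℝ) < (2 : ℝ≥0∞).toReal := by norm_num
    have := (memℓp_gen_iff h2).1 (lp.memℓp ξ)
    exact (memℓp_gen_iff h2).2 ((Equiv.summable_iff e.symm.toEquiv).2 this)⟩
  invFun ξ := ⟨fun h => ξ (e h), by
    have h2 : (0 : ℝ) < (2 : ℝ≥0∞).toReal := by norm_num
    have := (memℓp_gen_iff h2).1 (lp.memℓp ξ)
    exact (memℓp_gen_iff h2).2 ((Equiv.summable_iff e.toEquiv).2 this)⟩
  left_inv ξ := by
    apply lp.ext
    funext h
    change ξ (e.symm (e h)) = ξ h
    simp
  right_inv ξ := by
    apply lp.ext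
    funext h
    change ξ (e (e.symm h)) = ξ h
    simp
  map_add' ξ η := by
    apply lp.ext
    funext h
    simp
  map_smul' c ξ := by
    apply lp.ext
    funext h
    simp
  norm_map' ξ := by
    have h2 : (0 : ℝ) < (2 : ℝ≥0∞).toReal := by norm_num
    rw [lp.norm_eq_tsum_rpow h2, lp.norm_eq_tsum_rpow h2]
    congr 1
    exact Equiv.tsum_eq e.symm.toEquiv fun g => ‖ξ g‖ ^ (2 : ℝ≥0∞).toReal

theorem uni_apply (e : G ≃* H) (ξ : l2 G) (h : H) : uni e ξ h = ξ (e.symm h) := rfl

theorem uni_symm_apply (e : G ≃* H) (ξ : l2 H) (h : G) : (uni e).symm ξ h = ξ (e h) := rfl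

theorem conj_lam (e : G ≃* H) (g : G) : conj (uni e) (lam g) = lam (e g) := by
  ext ξ h
  rw [conj_apply, uni_apply]
  change (uni e).symm ξ (g⁻¹ * e.symm h) = ξ ((e g)⁻¹ * h)
  rw [uni_symm_apply]
  simp

theorem conj_mem (e : G ≃* H) {T : l2 G →L[ℂ] l2 G} (hT : T ∈ groupVN G) :
    conj (uni e) T ∈ groupVN H := by
  rw [mem_groupVN] at hT ⊢
  intro S hS
  have h1 := hT (conj (uni e).symm S) fun g => by
    have h2 := congrArg (conj (uni e).symm) (hS (e g))
    rw [conj_mul, conj_mul, ← conj_lam, conj_conj] at h2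
    exact h2
  have h3 := congrArg (conj (uni e)) h1
  rw [conj_mul, conj_mul] at h3
  have h4 : conj (uni e) (conj (uni e).symm S) = S := conj_conj (uni e).symm S
  rwa [h4] at h3

theorem conj_symm_mem (e : G ≃* H) {T : l2 H →L[ℂ] l2 H} (hT : T ∈ groupVN H) :
    conj (uni e).symm T ∈ groupVN G := by
  rw [mem_groupVN] at hT ⊢
  intro S hS
  have h1 := hT (conj (uni e) S) fun g => by
    obtain ⟨g, rfl⟩ := e.surjective g
    have h2 := congrArg (conj (uni e)) (hS g)
    rwa [conj_mul, conj_mul, conj_lam] at h2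
  have h3 := congrArg (conj (uni e).symm) h1
  rwa [conj_mul, conj_mul, conj_conj] at h3

/-- Isomorphic groups have isomorphic group von Neumann algebras: the relation `StarIsomorphic` is
not too strong. -/
theorem starIsomorphic_of_mulEquiv (e : G ≃* H) : StarIsomorphic (groupVN G) (groupVN H) := by
  refine ⟨⟨⟨⟨⟨fun T => ⟨conj (uni e) T.1, conj_mem e T.2⟩,
    fun T => ⟨conj (uni e).symm T.1, conj_symm_mem e T.2⟩, ?_, ?_⟩, ?_, ?_⟩, ?_⟩, ?_⟩⟩
  · intro T
    exact Subtype.ext (conj_conj (uni e) T.1)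
  · intro T
    exact Subtype.ext (conj_conj (uni e).symm T.1)
  · intro S T
    exact Subtype.ext (conj_mul (uni e) S.1 T.1)
  · intro S T
    apply Subtype.ext
    change conj (uni e) (S.1 + T.1) = conj (uni e) S.1 + conj (uni e) T.1
    ext x
    simp [conj_apply]
  · intro S
    exact Subtype.ext (conj_star (uni e) S.1)
  · intro c S
    apply Subtype.ext
    change conj (uni e) (c • S.1) = c • conj (uni e) S.1
    ext x
    simp [conj_apply]

end VN

end Pool.Agent.H27.DChk.VNStmt
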